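import Pool.Agent.CRT.Stmts

/-!
# Squad CRT (MP_46529f_an), row CEL

The bad shapes at the scale `T` are covered by few squares of the side `1 / T`.
-/

namespace Pool.Agent.CRT.H94

open Set Filter Topology MeasureTheory

/-- a square of side `1 / T` -/
def sqr (T : ℝ) (s : ℤ × ℤ) : Set (ℝ × ℝ) :=
  Icc ((s.1 : ℝ) / T) (((s.1 : ℝ) + 1) / T) ×ˢ Icc ((s.2 : ℝ) / T) (((s.2 : ℝ) + 1) / T)

theorem vol_sqr (T : ℝ) (hT : 0 < T) (s : ℤ × ℤ) :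
    volume (sqr T s) = ENNReal.ofReal (1 / T ^ 2) := by
  have h1 : ((s.1 : ℝ) + 1) / T - (s.1 : ℝ) / T = 1 / T := by field_simp; ring
  have h2 : ((s.2 : ℝ) + 1) / T - (s.2 : ℝ) / T = 1 / T := by field_simp; ring
  rw [sqr, Measure.volume_eq_prod, Measure.prod_prod, Real.volume_Icc, Real.volume_Icc, h1, h2,
    ← ENNReal.ofReal_mul (by positivity)]
  congr 1
  field_simp

theorem mem_sqr (T : ℝ) (hT : 0 < T) (w : ℝ × ℝ) : w ∈ sqr T (⌊T * w.1⌋, ⌊T * w.2⌋) := by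
  have h1 := Int.floor_le (T * w.1)
  have h2 := (Int.lt_floor_add_one (T * w.1)).le
  have h3 := Int.floor_le (T * w.2)
  have h4 := (Int.lt_floor_add_one (T * w.2)).le
  refine ⟨⟨?_, ?_⟩, ⟨?_, ?_⟩⟩
  · rw [div_le_iff₀ hT]; simp only; linarith
  · rw [le_div_iff₀ hT]; simp only; linarith
  · rw [div_le_iff₀ hT]; simp only; linarith
  · rw [le_div_iff₀ hT]; simp only; linarith

theorem cel (rdc : RdcStmt) (cmb : CmbStmt) : CelStmt := by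
  intro m hm
  obtain ⟨C, hC, rdc'⟩ := rdc m hm
  refine ⟨C, hC, ?_⟩
  intro Φ e L he hL hgap
  obtain ⟨κ, hκ, h1⟩ := rdc' Φ e L he hL hgap
  obtain ⟨C₂, τ₀, hC₂, hτ₀, h2⟩ := cmb κ m hκ hm
  refine ⟨C₂, τ₀ ^ 10, hC₂, one_le_pow₀ hτ₀, ?_⟩
  intro T hT
  have hT1 : 1 ≤ T := le_trans (one_le_pow₀ hτ₀) hT
  have hT0 : 0 < T := by linarith
  set τ : ℝ := T ^ ((1 : ℝ) / 10) with hτ
  have hτ0 : 0 < τ := Real.rpow_pos_of_pos hT0 _
  have hτT : τ ^ 10 = T := by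
    rw [hτ, ← Real.rpow_natCast, ← Real.rpow_mul hT0.le]
    norm_num
  have hττ : τ₀ ≤ τ := by
    by_contra h
    push Not at h
    have : τ ^ 10 < τ₀ ^ 10 := pow_lt_pow_left₀ h hτ0.le (by norm_num)
    linarith
  set B : Set (ℝ × ℝ) := {w | w ∈ Reg m ∧ ∃ t : ℝ, T ≤ t ∧ t ≤ 2 * T ∧
    volume (Exc Φ w t) < ENNReal.ofReal (1 / 2500)} with hB
  set f : ℝ × ℝ → ℤ × ℤ := fun w => (⌊T * w.1⌋, ⌊T * w.2⌋) with hf
  have hfl : ∀ x : ℝ, |x| ≤ m → -⌈T * m⌉ - 1 ≤ ⌊T * x⌋ ∧ ⌊T * x⌋ ≤ ⌈T * m⌉ := by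
    intro x hx
    have hx' := abs_le.mp hx
    have hc := Int.le_ceil (T * m)
    have e1 : T * x ≤ T * m := mul_le_mul_of_nonneg_left hx'.2 hT0.le
    have e2 : T * (-m) ≤ T * x := mul_le_mul_of_nonneg_left hx'.1 hT0.le
    constructor
    · rw [Int.le_floor]
      push_cast
      linarith
    · have : (⌊T * x⌋ : ℝ) ≤ (⌈T * m⌉ : ℝ) := le_trans (Int.floor_le _) (by linarith)
      exact_mod_cast this
  have hfin : (f '' B).Finite := by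
    apply Set.Finite.subset (Set.finite_Icc ((-⌈T * m⌉ - 1, -⌈T * m⌉ - 1) : ℤ × ℤ)
      (⌈T * m⌉, ⌈T * m⌉))
    rintro _ ⟨w, hw, rfl⟩
    have a1 := hfl w.1 hw.1.1
    have a2 := hfl w.2 hw.1.2.1
    exact ⟨⟨a1.1, a2.1⟩, ⟨a1.2, a2.2⟩⟩
  set Q : Finset (ℤ × ℤ) := hfin.toFinset with hQ
  have hQm : ∀ s, s ∈ Q ↔ ∃ w, w ∈ B ∧ f w = s := by
    intro s
    rw [hQ, Set.Finite.mem_toFinset]
    rfl
  have hch : ∀ s : ℤ × ℤ, ∃ z : ℝ × (ℝ × ℝ), s ∈ Q → T ≤ z.1 ∧ z.1 ≤ 2 * T ∧ z.2 ∈ Reg m ∧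
      volume (Exc Φ z.2 z.1) < ENNReal.ofReal (1 / 2500) ∧ f z.2 = s := by
    intro s
    by_cases hs : s ∈ Q
    · obtain ⟨w, ⟨hw1, t, ht1, ht2, ht3⟩, hfw⟩ := (hQm s).mp hs
      exact ⟨(t, w), fun _ => ⟨ht1, ht2, hw1, ht3, hfw⟩⟩
    · exact ⟨(0, 0), fun h => absurd h hs⟩
  choose z hz using hch
  set P : ℤ × ℤ → Co := fun s => ((T / (z s).1) ^ 2, (T / (z s).1) ^ 2 * (z s).2.1,
    (T / (z s).1) ^ 2 * (z s).2.2) with hP
  have hfam : Fam m (τ ^ 10) Q P := by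
    rw [hτT]
    intro s hs
    obtain ⟨b1, b2, b3, b4, b5⟩ := hz s hs
    have ht0 : 0 < (z s).1 := by linarith
    have q1 : T / (z s).1 ≤ 1 := by rw [div_le_one ht0]; exact b1
    have q2 : 1 / 2 ≤ T / (z s).1 := by rw [le_div_iff₀ ht0]; linarith
    have q0 : 0 ≤ T / (z s).1 := by linarith
    have f1 : ⌊T * (z s).2.1⌋ = s.1 := congrArg Prod.fst b5
    have f2 : ⌊T * (z s).2.2⌋ = s.2 := congrArg Prod.snd b5
    refine ⟨(T / (z s).1) ^ 2, (z s).2.1, (z s).2.2, ?_, ?_, b3.1, b3.2.1, rfl, ?_, ?_, ?_, ?_⟩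
    · nlinarith
    · exact pow_le_one₀ q0 q1
    · rw [← f1]; exact Int.floor_le _
    · rw [← f1]; exact Int.lt_floor_add_one _
    · rw [← f2]; exact Int.floor_le _
    · rw [← f2]; exact Int.lt_floor_add_one _
  have hconc : Conc κ (τ ^ 10) Q P := by
    rw [hτT]
    apply h1 T hT1 Q P
    intro s hs
    obtain ⟨b1, b2, b3, b4, b5⟩ := hz s hs
    exact ⟨(z s).1, (z s).2, b1, b2, b3, rfl, b4⟩
  have hcard := h2 τ hττ Q P hfam hconc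
  have hcov : B ⊆ ⋃ s ∈ Q, sqr T s := by
    intro w hw
    rw [Set.mem_iUnion₂]
    exact ⟨f w, (hQm _).mpr ⟨w, hw, rfl⟩, mem_sqr T hT0 w⟩
  calc volume B ≤ volume (⋃ s ∈ Q, sqr T s) := measure_mono hcov
    _ ≤ ∑ s ∈ Q, volume (sqr T s) := measure_biUnion_finset_le _ _
    _ = ∑ s ∈ Q, ENNReal.ofReal (1 / T ^ 2) := Finset.sum_congr rfl fun s _ => vol_sqr T hT0 s
    _ = ENNReal.ofReal ((Q.card : ℝ) * (1 / T ^ 2)) := by
        rw [Finset.sum_const, nsmul_eq_mul, ENNReal.ofReal_mul (by positivity),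
          ENNReal.ofReal_natCast]
    _ ≤ ENNReal.ofReal (C₂ * T ^ (-(1 / 10) : ℝ)) := by
        apply ENNReal.ofReal_le_ofReal
        have g1 : T ^ (-(1 / 10) : ℝ) = τ⁻¹ := by
          rw [Real.rpow_neg hT0.le]
        rw [g1, ← hτT]
        have g2 : C₂ * τ⁻¹ = C₂ * τ ^ 19 * (1 / (τ ^ 10) ^ 2) := by
          field_simp
        rw [g2]
        exact mul_le_mul_of_nonneg_right hcard (by positivity)

end Pool.Agent.CRT.H94
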